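import Pool.Agent.TH87.FDC.Metric

/-!
# Coarse embeddings of groups which contain their own square
-/

set_option autoImplicit false
set_option linter.unusedSectionVars false

namespace Pool.Agent.Y134.FD

open Pool.Agent.TH87.FDC

/-- The families all of whose members have vanishing cohomology, in the sense that every family
of subsets of `Γ` which embed into the members, with the control functions `u` and `v`, has. -/
def GoodC {Γ : Type} [Group Γ] (m : MetricSpace Γ) {Ω A : Type} (s : Ω → A → Γ)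
    (perp : Ω → Ω → Prop) (u v : ℝ → ℝ) (𝒳 : MetricFamily) : Prop :=
  ∀ (J : Type) (S : J → Set Γ), (∀ j, (S j).Nonempty → ∃ (i : 𝒳.ι) (φ : S j → 𝒳.space i),
    (∀ (R : ℝ) (x y : S j), m.dist x y ≤ R → dist (φ x) (φ y) ≤ u R) ∧
    ∀ (R : ℝ) (x y : S j), dist (φ x) (φ y) ≤ R → m.dist x y ≤ v R) → Van s perp S

section

variable {Γ : Type} [Group Γ] {m : MetricSpace Γ} (hm : ProperLeftInvariant m) {Ω A : Type}
  [Finite A] {s : Ω → A → Γ} {perp : Ω → Ω → Prop} (ht : Tree s perp) {u v : ℝ → ℝ}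

include hm ht

lemma goodC_bounded : ContainsBounded (GoodC m s perp u v) := by
  rintro 𝒳 ⟨D, hD⟩ J S hS
  refine van_bounded ht {x : Γ | m.dist 1 x ≤ v D} (hm.finite (v D)) ?_
  intro j x hx y hy
  obtain ⟨i, φ, -, hφ⟩ := hS j ⟨x, hx⟩
  have h1 := hφ D ⟨x, hx⟩ ⟨y, hy⟩ (hD i (φ ⟨x, hx⟩) (φ ⟨y, hy⟩))
  have h2 := hm.inv x⁻¹ x y
  rw [inv_mul_cancel] at h2
  change m.dist 1 (x⁻¹ * y) ≤ v D
  rw [h2]
  exact h1

/-- The general form of stability. -/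
lemma goodC_stable_general {𝒳 : MetricFamily} {d : ℕ}
    (h : ∀ r : ℝ, 0 < r → ∃ (D : Decomposition r d 𝒳) (𝒴 : MetricFamily),
      GoodC m s perp u v 𝒴 ∧
      ∀ i k j, ∃ (l : 𝒴.ι) (ψ : D.piece i k j → 𝒴.space l), Isometry ψ) :
    GoodC m s perp u v 𝒳 := by
  classical
  intro J S hS
  refine van_step ht d fun F hF => ?_
  -- the scale
  obtain ⟨r₀, hr₀⟩ : ∃ r₀ : ℝ, ∀ g ∈ F, m.dist 1 g ≤ r₀ := by
    obtain ⟨r, hr⟩ := (hF.image (fun g => m.dist 1 g)).bddAbove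
    exact ⟨r, fun g hg => hr ⟨g, hg, rfl⟩⟩
  obtain ⟨D, 𝒴, h𝒴, hD⟩ := h (max (u r₀) 1) (lt_max_of_lt_right one_pos)
  -- the labels
  choose idx φ hφ hφ' using hS
  have hlab : ∀ j x, ∃ q : Option (Σ (i : 𝒳.ι) (k : Fin (d + 1)), D.κ i k),
      ∀ hx : x ∈ S j, ∃ (k : Fin (d + 1)) (p : D.κ (idx j ⟨x, hx⟩) k),
        q = some ⟨idx j ⟨x, hx⟩, k, p⟩ ∧ φ j ⟨x, hx⟩ ⟨x, hx⟩ ∈ D.piece (idx j ⟨x, hx⟩) k p := by
    intro j x
    by_cases hx : x ∈ S j
    · obtain ⟨k, p, hp⟩ := D.cover (idx j ⟨x, hx⟩) (φ j ⟨x, hx⟩ ⟨x, hx⟩)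
      exact ⟨some ⟨idx j ⟨x, hx⟩, k, p⟩, fun _ => ⟨k, p, rfl, hp⟩⟩
    · exact ⟨none, fun hx' => absurd hx' hx⟩
  choose lab hlab using hlab
  refine ⟨Option (Σ (i : 𝒳.ι) (k : Fin (d + 1)), D.κ i k), lab,
    fun q => match q with | none => 0 | some p => p.2.1, ?_, ?_⟩
  · intro j x hx y hy hxy hc
    obtain ⟨k, p, h1, h2⟩ := hlab j x hx
    obtain ⟨k', p', h3, h4⟩ := hlab j y hy
    rw [h1, h3] at hc
    simp only at hc
    subst hc
    rw [h1, h3]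
    by_contra hne
    have hpp : p ≠ p' := fun h => hne (by rw [h])
    have h5 := D.disjoint (idx j ⟨x, hx⟩) k p p' hpp _ h2 _ h4
    have h6 := hr₀ _ hxy
    have h7 := hm.inv x⁻¹ x y
    rw [inv_mul_cancel] at h7
    rw [h7] at h6
    have h8 := hφ j ⟨x, hx⟩ r₀ ⟨x, hx⟩ ⟨y, hy⟩ h6
    exact absurd (lt_of_le_of_lt (le_max_left _ _) h5) (not_lt.2 h8)
  · intro I S' hS'
    refine h𝒴 I S' fun i hi => ?_
    obtain ⟨j, l, hl⟩ := hS' i
    obtain ⟨x0, hx0⟩ := hi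
    have hx0S : x0 ∈ S j := (hl hx0).1
    have hx0l : lab j x0 = l := (hl hx0).2
    have hne : (S j).Nonempty := ⟨x0, hx0S⟩
    obtain ⟨k, p, h1, h2⟩ : ∃ (k : Fin (d + 1)) (p : D.κ (idx j hne) k),
        lab j x0 = some ⟨idx j hne, k, p⟩ ∧ φ j hne ⟨x0, hx0S⟩ ∈ D.piece (idx j hne) k p :=
      hlab j x0 hx0S
    have hl' : l = some ⟨idx j hne, k, p⟩ := hx0l.symm.trans h1
    have key : ∀ x : S' i, ∃ hx : (x : Γ) ∈ S j,
        φ j hne ⟨x, hx⟩ ∈ D.piece (idx j hne) k p := by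
      intro x
      have hxS : (x : Γ) ∈ S j := (hl x.2).1
      have hxl : lab j x = l := (hl x.2).2
      obtain ⟨k', p', h3, h4⟩ : ∃ (k : Fin (d + 1)) (p : D.κ (idx j hne) k),
        lab j x = some ⟨idx j hne, k, p⟩ ∧ φ j hne ⟨x, hxS⟩ ∈ D.piece (idx j hne) k p :=
        hlab j x hxS
      refine ⟨hxS, ?_⟩
      have h5 : some (⟨idx j hne, k', p'⟩ : Σ (i : 𝒳.ι) (k : Fin (d + 1)), D.κ i k) =
          some ⟨idx j hne, k, p⟩ := h3.symm.trans (hxl.trans hl')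
      have h6 := Option.some.inj h5
      have h7 := eq_of_heq (Sigma.mk.inj_iff.1 h6).2
      obtain ⟨h8, h9⟩ := Sigma.mk.inj_iff.1 h7
      subst h8
      have h10 := eq_of_heq h9
      subst h10
      exact h4
    choose hx1 hx2 using key
    obtain ⟨q, ψ, hψ⟩ := hD (idx j hne) k p
    refine ⟨q, fun x => ψ ⟨φ j hne ⟨x, hx1 x⟩, hx2 x⟩, fun R x y hxy => ?_, fun R x y hxy => ?_⟩
    · rw [hψ.dist_eq]
      exact hφ j hne R _ _ hxy
    · rw [hψ.dist_eq] at hxy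
      exact hφ' j hne R ⟨x, hx1 x⟩ ⟨y, hx1 y⟩ hxy

end

/-- The map `f` is a coarse embedding of `(Γ, m)` into the metric space `X`. -/
def IsCoarseEmbedding {Γ X : Type} (m : MetricSpace Γ) [MetricSpace X] (f : Γ → X) : Prop :=
  (∀ R : ℝ, ∃ S : ℝ, ∀ x y : Γ, m.dist x y ≤ R → dist (f x) (f y) ≤ S) ∧
  ∀ R : ℝ, ∃ S : ℝ, ∀ x y : Γ, dist (f x) (f y) ≤ R → m.dist x y ≤ S

/-- If a group that contains its own square embeds coarsely into a member of `𝒳`, then some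
collection of metric families contains the bounded families, is closed under weak decomposition, and
does not contain `𝒳`. -/
theorem exists_of_coarse {Γ : Type} [Group Γ] {m : MetricSpace Γ}
    (hm : ProperLeftInvariant m) [Group.FG Γ] [Infinite Γ]
    (θ : Γ × Γ →* Γ) (hθ : Function.Injective θ) {𝒳 : MetricFamily} (i : 𝒳.ι)
    (f : Γ → 𝒳.space i) (hf : IsCoarseEmbedding m f) :
    ∃ C : MetricFamily → Prop, ContainsBounded C ∧
      (∀ (𝒵 : MetricFamily) (d : ℕ), (∀ r : ℝ, 0 < r → ∃ (D : Decomposition r d 𝒵)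
        (𝒴 : MetricFamily), C 𝒴 ∧ ∀ i k j, ∃ (l : 𝒴.ι) (ψ : D.piece i k j → 𝒴.space l),
          Isometry ψ) → C 𝒵) ∧ ¬ C 𝒳 := by
  obtain ⟨T, hT, hfin⟩ := Group.fg_iff.1 (inferInstance : Group.FG Γ)
  have : Finite T := hfin
  have ht := tree_of_square θ hθ (MonoidHom.id Γ) Function.injective_id (A := T) (fun a => a.1)
    (by rw [Subtype.range_coe_subtype]; exact hT)
  obtain ⟨hf1, hf2⟩ := hf
  choose u hu using hf1
  choose v hv using hf2
  refine ⟨GoodC m (fun (w : List Bool) (a : T) => MonoidHom.id Γ (phi θ w a.1))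
    Pool.Agent.TH87.FDC.perp u v, goodC_bounded hm ht, fun 𝒵 d h =>
      goodC_stable_general hm ht h, fun h => ?_⟩
  exact not_van_univ (([] : List Bool)) (h Unit (fun _ => Set.univ) fun _ _ =>
    ⟨i, fun x => f x.1, fun R x y hxy => hu R _ _ hxy, fun R x y hxy => hv R _ _ hxy⟩)

end Pool.Agent.Y134.FD
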