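import Pool.Agent.Results.MP_03d093_al.SphereBall

/-!
# Grigorchuk's group has no elements of odd order
-/

set_option autoImplicit false

namespace Pool.Agent.Y134.FD

open Pool.Agent.Results.MP_03d093_al.SphereBall

/-- The permutation preserves prefixes. -/
def Pre (g : Equiv.Perm (List Bool)) : Prop :=
  g [] = [] ∧ ∀ (w : List Bool) (x : Bool), ∃ y, g (w ++ [x]) = g w ++ [y]

lemma pre_a : Pre a := by
  refine ⟨rfl, fun w x => ?_⟩
  rcases w with _ | ⟨z, w⟩
  · exact ⟨!x, rfl⟩
  · exact ⟨x, rfl⟩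

lemma fun_bcd (w : List Bool) : ∀ x : Bool, (∃ y, bFun (w ++ [x]) = bFun w ++ [y]) ∧
    (∃ y, cFun (w ++ [x]) = cFun w ++ [y]) ∧ ∃ y, dFun (w ++ [x]) = dFun w ++ [y] := by
  induction w with
  | nil =>
    intro x
    cases x <;> simp [bFun, cFun, dFun, aFun]
  | cons z w ih =>
    intro x
    obtain ⟨⟨y1, h1⟩, ⟨y2, h2⟩, ⟨y3, h3⟩⟩ := ih x
    obtain ⟨y4, h4⟩ : ∃ y, aFun (w ++ [x]) = aFun w ++ [y] := pre_a.2 w x
    cases z
    · refine ⟨⟨y4, ?_⟩, ⟨y4, ?_⟩, ⟨x, ?_⟩⟩
      · rw [List.cons_append, bFun, bFun, h4, List.cons_append]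
      · rw [List.cons_append, cFun, cFun, h4, List.cons_append]
      · rw [List.cons_append, dFun, dFun, List.cons_append]
    · refine ⟨⟨y2, ?_⟩, ⟨y3, ?_⟩, ⟨y1, ?_⟩⟩
      · rw [List.cons_append, bFun, bFun, h2, List.cons_append]
      · rw [List.cons_append, cFun, cFun, h3, List.cons_append]
      · rw [List.cons_append, dFun, dFun, h1, List.cons_append]

lemma Pre.mul {g h : Equiv.Perm (List Bool)} (hg : Pre g) (hh : Pre h) : Pre (g * h) := by
  refine ⟨?_, fun w x => ?_⟩
  · rw [Equiv.Perm.mul_apply, hh.1, hg.1]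
  · obtain ⟨y, hy⟩ := hh.2 w x
    obtain ⟨z, hz⟩ := hg.2 (h w) y
    exact ⟨z, by rw [Equiv.Perm.mul_apply, Equiv.Perm.mul_apply, hy, hz]⟩

lemma Pre.inv {g : Equiv.Perm (List Bool)} (hg : Pre g) : Pre g⁻¹ := by
  refine ⟨?_, fun w x => ?_⟩
  · rw [Equiv.Perm.inv_eq_iff_eq, hg.1]
  · rcases List.eq_nil_or_concat (g⁻¹ (w ++ [x])) with h | ⟨u, y, h⟩
    · rw [Equiv.Perm.inv_eq_iff_eq, hg.1] at h
      simp at h
    · rw [List.concat_eq_append] at h
      rw [Equiv.Perm.inv_eq_iff_eq] at h
      obtain ⟨z, hz⟩ := hg.2 u y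
      rw [hz] at h
      have h2 := List.append_inj' h rfl
      have h3 : g⁻¹ w = u := by rw [Equiv.Perm.inv_eq_iff_eq, h2.1]
      refine ⟨y, ?_⟩
      rw [h3, Equiv.Perm.inv_eq_iff_eq, hz, ← h]

lemma pre_G {g : Equiv.Perm (List Bool)} (hg : g ∈ G) : Pre g := by
  unfold G at hg
  induction hg using Subgroup.closure_induction with
  | mem x hx =>
    simp only [Set.mem_insert_iff, Set.mem_singleton_iff] at hx
    rcases hx with rfl | rfl | rfl | rfl
    · exact pre_a
    · exact ⟨by simp [b_apply, bFun], fun w x => (fun_bcd w x).1⟩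
    · exact ⟨by simp [c_apply, cFun], fun w x => (fun_bcd w x).2.1⟩
    · exact ⟨by simp [d_apply, dFun], fun w x => (fun_bcd w x).2.2⟩
  | one => exact ⟨rfl, fun w x => ⟨x, rfl⟩⟩
  | mul x y _ _ h1 h2 => exact h1.mul h2
  | inv x _ h1 => exact h1.inv

/-- Grigorchuk's group has no nontrivial elements of odd order. -/
theorem no_odd (g : G) {n : ℕ} (hn : Odd n) (h : g ^ n = 1) : g = 1 := by
  have hp : Pre (g : Equiv.Perm (List Bool)) := pre_G g.2
  have hpow : (g : Equiv.Perm (List Bool)) ^ n = 1 := by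
    have h1 := congrArg Subtype.val h
    exact h1
  have hfix : ∀ w : List Bool, (g : Equiv.Perm (List Bool)) w = w := by
    intro w
    induction w using List.reverseRecOn with
    | nil => exact hp.1
    | append_singleton w x ih =>
      obtain ⟨y, hy⟩ := hp.2 w x
      rw [ih] at hy
      have hsq : (g : Equiv.Perm (List Bool)) ((g : Equiv.Perm (List Bool)) (w ++ [x]))
          = w ++ [x] := by
        by_cases hxy : y = x
        · have hy' : (g : Equiv.Perm (List Bool)) (w ++ [x]) = w ++ [x] := by rw [hy, hxy]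
          rw [hy', hy']
        · obtain ⟨z, hz⟩ := hp.2 w y
          rw [ih] at hz
          have hzy : z ≠ y := by
            intro hzy
            rw [hzy, ← hy] at hz
            have h2 := (g : Equiv.Perm (List Bool)).injective hz
            rw [hy] at h2
            have h3 := List.append_inj' h2 rfl
            have h4 : y = x := by
              have h5 := (g : Equiv.Perm (List Bool)).injective (hz.trans rfl)
              rw [hy] at h5
              simpa using h5
            exact hxy h4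
          have hzx : z = x := by
            cases x <;> cases y <;> cases z <;> simp_all
          rw [hy, hz, hzx]
      obtain ⟨k, hk⟩ := hn
      have hev : ∀ j : ℕ, ((g : Equiv.Perm (List Bool)) ^ (2 * j)) (w ++ [x]) = w ++ [x] := by
        intro j
        induction j with
        | zero => simp
        | succ j ihj =>
          rw [mul_add, mul_one, pow_add, Equiv.Perm.mul_apply, pow_two, Equiv.Perm.mul_apply, hsq,
            ihj]
      have h6 : ((g : Equiv.Perm (List Bool)) ^ n) (w ++ [x]) = w ++ [x] := by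
        rw [hpow]
        rfl
      rw [hk, pow_succ', Equiv.Perm.mul_apply, hev] at h6
      exact h6
  apply Subtype.ext
  apply Equiv.ext
  exact hfix

end Pool.Agent.Y134.FD
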