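import Pool.Agent.TH87.FDC.PropA

/-!
# Direct sums of cyclic groups of prime order
-/

set_option autoImplicit false

namespace Pool.Agent.Y134.FD

open Pool.Agent.TH87.FDC

/-- The odd primes. -/
abbrev OddPrime : Type := {p : ℕ // p.Prime ∧ p ≠ 2}

/-- The direct sum of the cyclic groups of order `p`, `p ∈ S`. -/
abbrev Sm (S : Set OddPrime) : Type := Multiplicative (Π₀ p : S, ZMod (p : OddPrime))

section
variable (S : Set OddPrime)

open Classical in
/-- The largest prime in the support. -/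
noncomputable def ht (x : Π₀ p : S, ZMod (p : OddPrime)) : ℕ :=
  x.support.sup fun p => ((p : OddPrime) : ℕ)

variable {S}

open Classical in
lemma le_ht {x : Π₀ p : S, ZMod (p : OddPrime)} {p : S} (h : x p ≠ 0) :
    ((p : OddPrime) : ℕ) ≤ ht S x :=
  Finset.le_sup (f := fun p : S => ((p : OddPrime) : ℕ)) (DFinsupp.mem_support_iff.2 h)

open Classical in
lemma ht_le {x : Π₀ p : S, ZMod (p : OddPrime)} {n : ℕ}
    (h : ∀ p : S, x p ≠ 0 → ((p : OddPrime) : ℕ) ≤ n) : ht S x ≤ n :=
  Finset.sup_le fun p hp => h p (DFinsupp.mem_support_iff.1 hp)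

lemma ht_zero : ht S 0 = 0 := by
  refine Nat.le_zero.1 (ht_le fun p hp => ?_)
  exact absurd rfl hp

lemma eq_zero_of_ht {x : Π₀ p : S, ZMod (p : OddPrime)} (h : ht S x = 0) : x = 0 := by
  ext p
  by_contra hne
  have h1 := le_ht hne
  have h2 := (p : OddPrime).2.1.pos
  omega

lemma ht_neg (x : Π₀ p : S, ZMod (p : OddPrime)) : ht S (-x) = ht S x := by
  apply le_antisymm
  · refine ht_le fun p hp => le_ht (p := p) fun h => hp ?_
    rw [DFinsupp.neg_apply, h, neg_zero]
  · refine ht_le fun p hp => le_ht (p := p) fun h => hp ?_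
    rw [DFinsupp.neg_apply, neg_eq_zero] at h
    exact h

lemma ht_add (x y : Π₀ p : S, ZMod (p : OddPrime)) : ht S (x + y) ≤ max (ht S x) (ht S y) := by
  refine ht_le fun p hp => ?_
  by_cases hx : x p = 0
  · refine le_max_of_le_right (le_ht fun hy => hp ?_)
    rw [DFinsupp.add_apply, hx, hy, add_zero]
  · exact le_max_of_le_left (le_ht hx)

/-- The metric. -/
noncomputable def smMetric (S : Set OddPrime) : MetricSpace (Sm S) where
  dist x y := (ht S (Multiplicative.toAdd x - Multiplicative.toAdd y) : ℝ)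
  dist_self x := by
    rw [sub_self, ht_zero, Nat.cast_zero]
  dist_comm x y := by
    rw [← neg_sub, ht_neg]
  dist_triangle x y z := by
    have h1 : Multiplicative.toAdd x - Multiplicative.toAdd z
        = (Multiplicative.toAdd x - Multiplicative.toAdd y)
          + (Multiplicative.toAdd y - Multiplicative.toAdd z) := by abel
    rw [h1]
    have h2 := ht_add (Multiplicative.toAdd x - Multiplicative.toAdd y)
      (Multiplicative.toAdd y - Multiplicative.toAdd z)
    have h3 := h2.trans (max_le_add_of_nonneg (Nat.zero_le _) (Nat.zero_le _))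
    exact_mod_cast h3
  eq_of_dist_eq_zero := by
    intro x y h
    have h1 : ht S (Multiplicative.toAdd x - Multiplicative.toAdd y) = 0 := by exact_mod_cast h
    exact Multiplicative.toAdd.injective (sub_eq_zero.1 (eq_zero_of_ht h1))

lemma sm_dist (x y : Sm S) : (smMetric S).dist x y
    = (ht S (Multiplicative.toAdd x - Multiplicative.toAdd y) : ℝ) := rfl

lemma sm_dist_one (x : Sm S) : (smMetric S).dist 1 x = (ht S (Multiplicative.toAdd x) : ℝ) := by
  rw [sm_dist, toAdd_one, zero_sub, ht_neg]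

lemma ht_finite (n : ℕ) : {x : Sm S | ht S (Multiplicative.toAdd x) ≤ n}.Finite := by
  classical
  have hT : {p : S | ((p : OddPrime) : ℕ) ≤ n}.Finite := by
    refine Set.Finite.of_injOn (f := fun p : S => ((p : OddPrime) : ℕ)) (t := Set.Iic n)
      (fun p hp => hp) ?_ (Set.finite_Iic n)
    intro p _ q _ h
    exact Subtype.ext (Subtype.ext h)
  have hne : ∀ p : S, NeZero ((p : OddPrime) : ℕ) := fun p => ⟨(p : OddPrime).2.1.ne_zero⟩
  refine (Set.finite_range (fun f : (∀ p : (hT.toFinset : Set S), ZMod ((p : S) : OddPrime)) =>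
    (Multiplicative.ofAdd (DFinsupp.mk hT.toFinset f) : Sm S))).subset ?_
  intro x hx
  refine ⟨fun p => Multiplicative.toAdd x p, ?_⟩
  apply Multiplicative.toAdd.injective
  rw [toAdd_ofAdd]
  ext p
  rw [DFinsupp.mk_apply]
  split_ifs with h
  · rfl
  · by_contra hne'
    apply h
    rw [Set.Finite.mem_toFinset]
    exact (le_ht (Ne.symm hne')).trans hx

lemma sm_proper (S : Set OddPrime) : ProperLeftInvariant (smMetric S) := by
  refine ⟨?_, ?_⟩
  · intro g x y
    rw [sm_dist, sm_dist, toAdd_mul, toAdd_mul, add_sub_add_left_eq_sub]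
  · intro R
    refine (ht_finite ⌊R⌋₊).subset ?_
    intro x hx
    have h1 : (smMetric S).dist 1 x ≤ R := hx
    rw [sm_dist_one] at h1
    exact Nat.le_floor h1

lemma sm_folner (S : Set OddPrime) : ∀ K : Set (Sm S), K.Finite → ∀ ε : ℝ, 0 < ε →
    ∃ F : Finset (Sm S), F.Nonempty ∧
      ∀ k ∈ K, (({x | x ∈ F ∧ k * x ∉ F} : Set (Sm S)).ncard : ℝ) ≤ ε * (F.card : ℝ) := by
  intro K hK ε hε
  obtain ⟨n, hn⟩ := (hK.image (fun k => ht S (Multiplicative.toAdd k))).bddAbove
  refine ⟨(ht_finite (S := S) n).toFinset, ⟨1, ?_⟩, fun k hk => ?_⟩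
  · rw [Set.Finite.mem_toFinset]
    change ht S (Multiplicative.toAdd 1) ≤ n
    rw [toAdd_one, ht_zero]
    exact Nat.zero_le _
  · have h1 : {x | x ∈ (ht_finite (S := S) n).toFinset ∧ k * x ∉ (ht_finite (S := S) n).toFinset}
        = (∅ : Set (Sm S)) := by
      rw [Set.eq_empty_iff_forall_notMem]
      rintro x ⟨hx, hx2⟩
      rw [Set.Finite.mem_toFinset] at hx hx2
      apply hx2
      change ht S (Multiplicative.toAdd (k * x)) ≤ n
      rw [toAdd_mul]
      refine (ht_add _ _).trans (max_le ?_ hx)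
      exact hn ⟨k, hk, rfl⟩
    rw [h1, Set.ncard_empty, Nat.cast_zero]
    positivity

theorem sm_propertyA (S : Set OddPrime) : PropertyA (smMetric S) :=
  propertyA_of_folner (sm_proper S) (sm_folner S)

/-- An element of prime order. -/
lemma exists_order {p : OddPrime} (hp : p ∈ S) : ∃ x : Sm S, x ≠ 1 ∧ x ^ (p : ℕ) = 1 := by
  classical
  refine ⟨Multiplicative.ofAdd (DFinsupp.single (⟨p, hp⟩ : S) (1 : ZMod (p : ℕ))), ?_, ?_⟩
  · intro h
    have h1 := congrArg Multiplicative.toAdd h
    rw [toAdd_ofAdd, toAdd_one, DFinsupp.single_eq_zero] at h1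
    have : Fact (p : ℕ).Prime := ⟨p.2.1⟩
    exact one_ne_zero h1
  · apply Multiplicative.toAdd.injective
    rw [toAdd_pow, toAdd_ofAdd, toAdd_one]
    ext q
    rw [DFinsupp.smul_apply, DFinsupp.single_apply, DFinsupp.zero_apply]
    split_ifs with h
    · subst h
      change (p : ℕ) • (1 : ZMod (p : ℕ)) = 0
      rw [nsmul_eq_mul, mul_one, ZMod.natCast_self]
    · exact smul_zero _

lemma mem_of_order {p : OddPrime} {x : Sm S} (hx : x ≠ 1) (h : x ^ (p : ℕ) = 1) : p ∈ S := by
  have h1 : ∃ q : S, Multiplicative.toAdd x q ≠ 0 := by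
    by_contra hcon
    push Not at hcon
    apply hx
    apply Multiplicative.toAdd.injective
    ext q
    rw [hcon q]
    rfl
  obtain ⟨q, hq⟩ := h1
  have h2 := congrArg Multiplicative.toAdd h
  rw [toAdd_pow, toAdd_one] at h2
  have h3 := DFunLike.congr_fun h2 q
  rw [DFinsupp.smul_apply, DFinsupp.zero_apply, nsmul_eq_mul] at h3
  have : Fact ((q : OddPrime) : ℕ).Prime := ⟨(q : OddPrime).2.1⟩
  rcases mul_eq_zero.1 h3 with h4 | h4
  · rw [ZMod.natCast_eq_zero_iff] at h4
    have h5 := (Nat.prime_dvd_prime_iff_eq (q : OddPrime).2.1 p.2.1).1 h4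
    have h6 : (q : OddPrime) = p := Subtype.ext h5
    rw [← h6]
    exact q.2
  · exact absurd h4 hq

end

end Pool.Agent.Y134.FD
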