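import Pool.Agent.Y134.FD.Prod
import Pool.Agent.Y134.FD.Sum
import Pool.Agent.Y134.FD.Odd

/-!
# Amenability of products, continuum many groups
-/

set_option autoImplicit false

namespace Pool.Agent.Y134.FD

open Pool.Agent.TH87.FDC

/-- Følner's condition. -/
def Amenable (G : Type) [Group G] : Prop :=
  ∀ K : Set G, K.Finite → ∀ ε : ℝ, 0 < ε → ∃ F : Finset G, F.Nonempty ∧
    ∀ k ∈ K, (({x | x ∈ F ∧ k * x ∉ F} : Set G).ncard : ℝ) ≤ ε * (F.card : ℝ)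

theorem amenable_prod {H G : Type} [Group H] [Group G] (hH : Amenable H) (hG : Amenable G) :
    Amenable (H × G) := by
  classical
  intro K hK ε hε
  obtain ⟨F₁, hF₁, h₁⟩ := hH _ (hK.image Prod.fst) (ε / 2) (by positivity)
  obtain ⟨F₂, hF₂, h₂⟩ := hG _ (hK.image Prod.snd) (ε / 2) (by positivity)
  refine ⟨F₁ ×ˢ F₂, hF₁.product hF₂, fun k hk => ?_⟩
  have e₁ := h₁ k.1 ⟨k, hk, rfl⟩
  have e₂ := h₂ k.2 ⟨k, hk, rfl⟩
  have f₁ : ({x | x ∈ F₁ ∧ k.1 * x ∉ F₁} : Set H).Finite := F₁.finite_toSet.subset fun x hx => hx.1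
  have f₂ : ({x | x ∈ F₂ ∧ k.2 * x ∉ F₂} : Set G).Finite := F₂.finite_toSet.subset fun x hx => hx.1
  have hsub : ({x | x ∈ F₁ ×ˢ F₂ ∧ k * x ∉ F₁ ×ˢ F₂} : Set (H × G)) ⊆
      (({x | x ∈ F₁ ∧ k.1 * x ∉ F₁} : Set H) ×ˢ (F₂ : Set G)) ∪
      ((F₁ : Set H) ×ˢ ({x | x ∈ F₂ ∧ k.2 * x ∉ F₂} : Set G)) := by
    rintro ⟨x, y⟩ ⟨hxy, hn⟩
    rw [Finset.mem_product] at hxy
    have hn' : ¬ (k.1 * x ∈ F₁ ∧ k.2 * y ∈ F₂) := fun h => hn (Finset.mem_product.2 h)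
    by_cases hx : k.1 * x ∈ F₁
    · right
      exact ⟨hxy.1, hxy.2, fun hy => hn' ⟨hx, hy⟩⟩
    · left
      exact ⟨⟨hxy.1, hx⟩, hxy.2⟩
  have hcard := Set.ncard_le_ncard hsub
    ((f₁.prod F₂.finite_toSet).union (F₁.finite_toSet.prod f₂))
  have hcard2 := hcard.trans (Set.ncard_union_le _ _)
  rw [Set.ncard_prod, Set.ncard_prod, Set.ncard_coe_finset, Set.ncard_coe_finset] at hcard2
  have h3 : (({x | x ∈ F₁ ×ˢ F₂ ∧ k * x ∉ F₁ ×ˢ F₂} : Set (H × G)).ncard : ℝ) ≤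
      (({x | x ∈ F₁ ∧ k.1 * x ∉ F₁} : Set H).ncard : ℝ) * F₂.card
        + (F₁.card : ℝ) * (({x | x ∈ F₂ ∧ k.2 * x ∉ F₂} : Set G).ncard : ℝ) := by
    exact_mod_cast hcard2
  refine h3.trans ?_
  rw [Finset.card_product, Nat.cast_mul]
  have p₁ : (0 : ℝ) ≤ F₁.card := Nat.cast_nonneg _
  have p₂ : (0 : ℝ) ≤ F₂.card := Nat.cast_nonneg _
  nlinarith [mul_le_mul_of_nonneg_right e₁ p₂, mul_le_mul_of_nonneg_left e₂ p₁]

theorem countable_of_proper {G : Type} [Group G] {m : MetricSpace G}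
    (hm : ProperLeftInvariant m) : Countable G := by
  rw [← Set.countable_univ_iff]
  refine (Set.countable_iUnion (fun k : ℕ => (hm.finite k).countable)).mono ?_
  intro g _
  obtain ⟨k, hk⟩ := exists_nat_ge (m.dist 1 g)
  exact Set.mem_iUnion.2 ⟨k, hk⟩

/-- The groups are not isomorphic. -/
theorem eq_of_iso {S T : Set OddPrime} (e : Nonempty ((Sm S × SB.G) ≃* (Sm T × SB.G))) :
    S = T := by
  have key : ∀ {S T : Set OddPrime}, ((Sm S × SB.G) ≃* (Sm T × SB.G)) → S ⊆ T := by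
    intro S T e p hp
    obtain ⟨x, hx, hxp⟩ := exists_order hp
    have hodd : Odd (p : ℕ) := p.2.1.odd_of_ne_two p.2.2
    have h1 : (e (x, 1)) ^ (p : ℕ) = 1 := by
      rw [← map_pow, Prod.pow_mk, hxp, one_pow]
      exact map_one e
    have h2 : (e (x, 1)).2 = 1 := no_odd _ hodd (congrArg Prod.snd h1)
    have h3 : (e (x, 1)).1 ≠ 1 := by
      intro h4
      have h5 : e (x, 1) = 1 := Prod.ext h4 h2
      rw [map_eq_one_iff e e.injective] at h5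
      exact hx (congrArg Prod.fst h5)
    exact mem_of_order h3 (congrArg Prod.fst h1)
  obtain ⟨e⟩ := e
  exact Set.Subset.antisymm (key e) (key e.symm)

theorem mk_oddPrime : Cardinal.mk (Set OddPrime) = Cardinal.continuum := by
  have h1 : Infinite OddPrime := by
    have h2 : ({p : ℕ | p.Prime ∧ p ≠ 2} : Set ℕ).Infinite := by
      have h3 : ({p : ℕ | p.Prime ∧ p ≠ 2} : Set ℕ) = {p : ℕ | p.Prime} \ {2} := by
        ext p
        simp
      rw [h3]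
      exact Nat.infinite_setOf_prime.diff (Set.finite_singleton 2)
    exact h2.to_subtype
  rw [Cardinal.mk_set, Cardinal.mk_eq_aleph0, Cardinal.two_power_aleph0]

end Pool.Agent.Y134.FD
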