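import Pool.Agent.TH87.FDC.PropA

/-!
# Property A for products
-/

set_option autoImplicit false

namespace Pool.Agent.Y134.FD

open Pool.Agent.TH87.FDC

section
variable {H G : Type}

lemma summable_ls (f : lp (fun _ : H => ℝ) 1) : Summable fun x => ‖f x‖ := by
  have h := (lp.memℓp f).summable (by simp)
  simpa using h

lemma norm_eq (f : lp (fun _ : H => ℝ) 1) : ‖f‖ = ∑' x, ‖f x‖ := by
  rw [lp.norm_eq_tsum_rpow (by simp)]
  simp

lemma summable_tns (f : lp (fun _ : H => ℝ) 1) (g : lp (fun _ : G => ℝ) 1) :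
    Summable fun p : H × G => ‖f p.1 * g p.2‖ := by
  have h := Summable.mul_of_nonneg (summable_ls f) (summable_ls g)
    (fun _ => norm_nonneg _) (fun _ => norm_nonneg _)
  refine h.congr fun p => ?_
  rw [norm_mul]

/-- The tensor product. -/
noncomputable def tns (f : lp (fun _ : H => ℝ) 1) (g : lp (fun _ : G => ℝ) 1) :
    lp (fun _ : H × G => ℝ) 1 :=
  ⟨fun p => f p.1 * g p.2, memℓp_gen (by simpa using summable_tns f g)⟩

lemma tns_apply (f : lp (fun _ : H => ℝ) 1) (g : lp (fun _ : G => ℝ) 1) (p : H × G) :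
    tns f g p = f p.1 * g p.2 := rfl

lemma norm_tns (f : lp (fun _ : H => ℝ) 1) (g : lp (fun _ : G => ℝ) 1) :
    ‖tns f g‖ = ‖f‖ * ‖g‖ := by
  rw [norm_eq, norm_eq, norm_eq, (summable_ls f).tsum_mul_tsum (summable_ls g)
    (Summable.mul_of_nonneg (summable_ls f) (summable_ls g)
      (fun _ => norm_nonneg _) (fun _ => norm_nonneg _))]
  refine tsum_congr fun p => ?_
  rw [tns_apply, norm_mul]

lemma tns_sub (f f' : lp (fun _ : H => ℝ) 1) (g g' : lp (fun _ : G => ℝ) 1) :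
    tns f g - tns f' g' = tns (f - f') g + tns f' (g - g') := by
  ext p
  rw [lp.coeFn_sub, lp.coeFn_add, Pi.sub_apply, Pi.add_apply, tns_apply, tns_apply, tns_apply,
    tns_apply, lp.coeFn_sub, lp.coeFn_sub, Pi.sub_apply, Pi.sub_apply]
  ring

lemma norm_tns_sub (f f' : lp (fun _ : H => ℝ) 1) (g g' : lp (fun _ : G => ℝ) 1) :
    ‖tns f g - tns f' g'‖ ≤ ‖f - f'‖ * ‖g‖ + ‖f'‖ * ‖g - g'‖ := by
  rw [tns_sub, ← norm_tns, ← norm_tns]
  exact norm_add_le _ _

end

section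
variable {H G : Type} [Group H] [Group G]

/-- The maximum metric on a product. -/
theorem exists_prod_metric {mH : MetricSpace H} {mG : MetricSpace G}
    (hH : ProperLeftInvariant mH) (hG : ProperLeftInvariant mG) :
    ∃ m : MetricSpace (H × G), ProperLeftInvariant m := by
  refine ⟨by
    letI := mH
    letI := mG
    exact Prod.metricSpaceMax, ?_, ?_⟩
  · rintro ⟨g, g'⟩ ⟨x, x'⟩ ⟨y, y'⟩
    change max (mH.dist (g * x) (g * y)) (mG.dist (g' * x') (g' * y'))
      = max (mH.dist x y) (mG.dist x' y')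
    rw [hH.inv, hG.inv]
  · intro R
    refine ((hH.finite R).prod (hG.finite R)).subset ?_
    rintro ⟨x, y⟩ h
    have h1 : max (mH.dist 1 x) (mG.dist 1 y) ≤ R := h
    exact ⟨(le_max_left _ _).trans h1, (le_max_right _ _).trans h1⟩

lemma dist_eq_one {m : MetricSpace G} (hm : ProperLeftInvariant m) (x y : G) :
    m.dist x y = m.dist 1 (x⁻¹ * y) := by
  have h := hm.inv x⁻¹ x y
  rw [inv_mul_cancel] at h
  exact h.symm

lemma exists_bound (m : MetricSpace G) {T : Set G} (hT : T.Finite) :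
    ∃ S : ℝ, 0 < S ∧ ∀ x ∈ T, m.dist 1 x < S := by
  obtain ⟨S, hS⟩ := (hT.image (fun g => m.dist 1 g)).bddAbove
  exact ⟨max S 0 + 1, by positivity,
    fun g hg => lt_of_le_of_lt ((hS ⟨g, hg, rfl⟩).trans (le_max_left _ _)) (lt_add_one _)⟩

/-- Property A for products. -/
theorem propertyA_prod {mH : MetricSpace H} {mG : MetricSpace G}
    (hH : ProperLeftInvariant mH) (hG : ProperLeftInvariant mG) (aH : PropertyA mH)
    (aG : PropertyA mG) (m : MetricSpace (H × G)) (hm : ProperLeftInvariant m) : PropertyA m := by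
  intro R hR ε hε
  have hball := hm.finite R
  obtain ⟨R1, hR1, h1⟩ := exists_bound mH (hball.image Prod.fst)
  obtain ⟨R2, hR2, h2⟩ := exists_bound mG (hball.image Prod.snd)
  obtain ⟨S1, hS1, ξ, hξ1, hξ2, hξ3⟩ := aH R1 hR1 (ε / 2) (by positivity)
  obtain ⟨S2, hS2, η, hη1, hη2, hη3⟩ := aG R2 hR2 (ε / 2) (by positivity)
  obtain ⟨S, hS, h3⟩ := exists_bound m ((hH.finite S1).prod (hG.finite S2))
  refine ⟨S, hS, fun p => tns (ξ p.1) (η p.2), fun p => ?_, fun p x hx => ?_, fun p p' hpp => ?_⟩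
  · rw [norm_tns, hξ1, hη1, one_mul]
  · rw [tns_apply] at hx
    have e1 := hξ2 p.1 x.1 (left_ne_zero_of_mul hx)
    have e2 := hη2 p.2 x.2 (right_ne_zero_of_mul hx)
    rw [m.dist_comm, dist_eq_one hm]
    apply h3
    refine ⟨?_, ?_⟩
    · change mH.dist 1 (p.1⁻¹ * x.1) ≤ S1
      rw [← dist_eq_one hH, mH.dist_comm]
      exact e1.le
    · change mG.dist 1 (p.2⁻¹ * x.2) ≤ S2
      rw [← dist_eq_one hG, mG.dist_comm]
      exact e2.le
  · have hmem : p⁻¹ * p' ∈ {x | m.dist 1 x ≤ R} := by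
      change m.dist 1 (p⁻¹ * p') ≤ R
      rw [← dist_eq_one hm]
      exact hpp
    have e1 : mH.dist p.1 p'.1 ≤ R1 := by
      rw [dist_eq_one hH]
      exact (h1 _ ⟨_, hmem, rfl⟩).le
    have e2 : mG.dist p.2 p'.2 ≤ R2 := by
      rw [dist_eq_one hG]
      exact (h2 _ ⟨_, hmem, rfl⟩).le
    have e3 := norm_tns_sub (ξ p.1) (ξ p'.1) (η p.2) (η p'.2)
    rw [hη1, hξ1, mul_one, one_mul] at e3
    have e4 := hξ3 _ _ e1
    have e5 := hη3 _ _ e2
    linarith

end

end Pool.Agent.Y134.FD
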